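import Pool.Agent.P8H98.FM.Stm
import Pool.Agent.R923.SE.Base

/-!
Project FM, package KER (helper53): the kernel and the distance.
-/

set_option autoImplicit false

open MeasureTheory Complex Filter Topology
open scoped ENNReal NNReal ComplexConjugate

namespace Pool.Agent.P8H53.FM

open Pool.Agent.R923.SE Pool.Agent.P8H98.FM

noncomputable section

/-! ### algebra -/

lemma nn2_nonneg (v : Om) : 0 ≤ nn2 v := by unfold nn2; positivity

lemma nn2_pos {v : Om} (h : nn2 v ≠ 0) : 0 < nn2 v := lt_of_le_of_ne (nn2_nonneg v) (Ne.symm h)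

lemma hp_self (v : Om) : hp v v = ((nn2 v : ℝ) : ℂ) := by
  unfold hp nn2
  rw [Complex.mul_conj', Complex.mul_conj']
  push_cast
  ring

lemma hp_conj (v w : Om) : conj (hp v w) = hp w v := by
  unfold hp
  simp only [map_add, map_mul, Complex.conj_conj]
  ring

lemma norm_hp_comm (v w : Om) : ‖hp v w‖ = ‖hp w v‖ := by
  rw [← hp_conj v w, RCLike.norm_conj]

/-- the kernel -/
lemma ker1 (n : ℕ) (v w : Om) : ∑ j, conj (ph n v j) * ph n w j =
    n * (hp w v / ((√(nn2 v) * √(nn2 w) : ℝ) : ℂ)) ^ (n - 1) := by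
  rcases n with _ | m
  · simp
  · simp only [Nat.add_sub_cancel, ph]
    rw [div_pow]
    have hs : hp w v = conj v.1 * w.1 + conj v.2 * w.2 := by unfold hp; ring
    rw [hs, add_pow, Finset.sum_range, mul_div_assoc', Finset.mul_sum, Finset.sum_div]
    refine Finset.sum_congr rfl fun j _ => ?_
    have h1 : ((√(((m + 1 : ℕ) : ℝ) * (m.choose (j : ℕ) : ℝ)) : ℝ) : ℂ) *
        ((√(((m + 1 : ℕ) : ℝ) * (m.choose (j : ℕ) : ℝ)) : ℝ) : ℂ) =
        ((m + 1 : ℕ) : ℂ) * (m.choose (j : ℕ) : ℂ) := by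
      rw [← Complex.ofReal_mul, Real.mul_self_sqrt (by positivity)]
      push_cast
      rfl
    simp only [map_div₀, map_mul, map_pow, Complex.conj_ofReal]
    rw [div_mul_div_comm, ← Complex.ofReal_mul, ← mul_pow, ← Complex.ofReal_pow]
    congr 1
    rw [mul_pow, mul_pow]
    linear_combination (conj v.1 ^ (j : ℕ) * w.1 ^ (j : ℕ) * conj v.2 ^ (m - (j : ℕ)) *
      w.2 ^ (m - (j : ℕ))) * h1

lemma one_sub_d2 (v w : Om) : 1 - d2 v w = ‖hp v w‖ ^ 2 / (nn2 v * nn2 w) := by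
  unfold d2; ring

lemma ker2 (n : ℕ) (v w : Om) : ‖∑ j, conj (ph n v j) * ph n w j‖ ^ 2 =
    (n : ℝ) ^ 2 * (1 - d2 v w) ^ (n - 1) := by
  rw [ker1, one_sub_d2, norm_mul, mul_pow, Complex.norm_natCast, norm_pow, norm_div,
    Complex.norm_real, norm_hp_comm w v]
  congr 1
  rw [← pow_mul, mul_comm (n - 1) 2, pow_mul, div_pow]
  congr 2
  rw [Real.norm_of_nonneg (by positivity), mul_pow, Real.sq_sqrt (nn2_nonneg v),
    Real.sq_sqrt (nn2_nonneg w)]

lemma ker3 (n : ℕ) (v : Om) (hv : nn2 v ≠ 0) : ns (ph n v) = n := by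
  have h := ker1 n v v
  rw [hp_self, Real.mul_self_sqrt (nn2_nonneg v), div_self (by exact_mod_cast hv), one_pow,
    mul_one] at h
  have h2 : ((ns (ph n v) : ℝ) : ℂ) = n := by
    rw [← h, ns]
    push_cast
    exact Finset.sum_congr rfl fun i _ => (Complex.conj_mul' _).symm
  exact_mod_cast h2

lemma meas_nn2 : Measurable nn2 := by unfold nn2; fun_prop

lemma meas_ph (n : ℕ) (j : Fin n) : Measurable fun v => ph n v j := by
  unfold ph
  have h := meas_nn2
  fun_prop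

lemma meas_d2 : Measurable fun p : Om × Om => d2 p.1 p.2 := by
  unfold d2 hp nn2
  have : Measurable fun p : Om × Om => p.1.1 * conj p.2.1 + p.1.2 * conj p.2.2 := by
    have hc : Continuous fun p : Om × Om => p.1.1 * conj p.2.1 + p.1.2 * conj p.2.2 := by
      fun_prop
    exact hc.measurable
  fun_prop

lemma cs (v w : Om) : ‖hp v w‖ ^ 2 ≤ nn2 v * nn2 w := by
  have h1 : ‖hp v w‖ ≤ ‖v.1‖ * ‖w.1‖ + ‖v.2‖ * ‖w.2‖ := by
    unfold hp
    refine (norm_add_le _ _).trans ?_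
    simp
  have h2 : ‖hp v w‖ ^ 2 ≤ (‖v.1‖ * ‖w.1‖ + ‖v.2‖ * ‖w.2‖) ^ 2 :=
    pow_le_pow_left₀ (norm_nonneg _) h1 2
  refine h2.trans ?_
  unfold nn2
  nlinarith [sq_nonneg (‖v.1‖ * ‖w.2‖ - ‖v.2‖ * ‖w.1‖)]

lemma d2_comm (v w : Om) : d2 v w = d2 w v := by
  unfold d2; rw [norm_hp_comm, mul_comm]

lemma d2_mem (v w : Om) : 0 ≤ d2 v w ∧ d2 v w ≤ 1 ∧ d2 v w = d2 w v := by
  refine ⟨?_, ?_, d2_comm v w⟩
  · unfold d2
    have h := cs v w
    have : ‖hp v w‖ ^ 2 / (nn2 v * nn2 w) ≤ 1 :=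
      div_le_one_of_le₀ h (mul_nonneg (nn2_nonneg v) (nn2_nonneg w))
    linarith
  · unfold d2
    have : 0 ≤ ‖hp v w‖ ^ 2 / (nn2 v * nn2 w) := by
      have := nn2_nonneg v
      have := nn2_nonneg w
      positivity
    linarith

/-- the Bloch vector -/
def bl (v : Om) : WithLp 2 (ℂ × ℝ) :=
  WithLp.toLp 2 ((2 * v.1 * conj v.2 / ((nn2 v : ℝ) : ℂ), (‖v.1‖ ^ 2 - ‖v.2‖ ^ 2) / nn2 v) : ℂ × ℝ)

lemma bloch (v w : Om) (hv : nn2 v ≠ 0) (hw : nn2 w ≠ 0) :
    ‖2 * v.1 * conj v.2 / ((nn2 v : ℝ) : ℂ) - 2 * w.1 * conj w.2 / ((nn2 w : ℝ) : ℂ)‖ ^ 2 +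
      ((‖v.1‖ ^ 2 - ‖v.2‖ ^ 2) / nn2 v - (‖w.1‖ ^ 2 - ‖w.2‖ ^ 2) / nn2 w) ^ 2 = 4 * d2 v w := by
  obtain ⟨⟨a, b⟩, ⟨c, d⟩⟩ := v
  obtain ⟨⟨a', b'⟩, ⟨c', d'⟩⟩ := w
  have e1 : nn2 (⟨a, b⟩, ⟨c, d⟩) = a ^ 2 + b ^ 2 + (c ^ 2 + d ^ 2) := by
    unfold nn2
    rw [← Complex.normSq_eq_norm_sq, ← Complex.normSq_eq_norm_sq, Complex.normSq_apply,
      Complex.normSq_apply]
    ring
  have e2 : nn2 (⟨a', b'⟩, ⟨c', d'⟩) = a' ^ 2 + b' ^ 2 + (c' ^ 2 + d' ^ 2) := by
    unfold nn2
    rw [← Complex.normSq_eq_norm_sq, ← Complex.normSq_eq_norm_sq, Complex.normSq_apply,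
      Complex.normSq_apply]
    ring
  unfold d2
  rw [← Complex.normSq_eq_norm_sq, ← Complex.normSq_eq_norm_sq, ← Complex.normSq_eq_norm_sq,
    ← Complex.normSq_eq_norm_sq, ← Complex.normSq_eq_norm_sq, ← Complex.normSq_eq_norm_sq]
  generalize nn2 (⟨a, b⟩, ⟨c, d⟩) = N at *
  generalize nn2 (⟨a', b'⟩, ⟨c', d'⟩) = M at *
  simp only [Complex.normSq_apply, Complex.sub_re, Complex.sub_im, Complex.div_ofReal_re,
    Complex.div_ofReal_im, Complex.mul_re, Complex.mul_im, Complex.conj_re, Complex.conj_im,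
    Complex.re_ofNat, Complex.im_ofNat, hp, Complex.add_re, Complex.add_im]
  field_simp
  rw [e1, e2]
  ring

lemma bl_dist (v w : Om) (hv : nn2 v ≠ 0) (hw : nn2 w ≠ 0) : dist (bl v) (bl w) ^ 2 = 4 * d2 v w := by
  rw [dist_eq_norm, WithLp.prod_norm_sq_eq_of_L2, ← bloch v w hv hw]
  simp only [bl, WithLp.sub_fst, WithLp.sub_snd, Real.norm_eq_abs, sq_abs]
  rfl

lemma d2_tri (v w u : Om) (hv : nn2 v ≠ 0) (hw : nn2 w ≠ 0) (hu : nn2 u ≠ 0) :
    √(d2 v w) ≤ √(d2 v u) + √(d2 u w) := by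
  have key : ∀ x y : Om, nn2 x ≠ 0 → nn2 y ≠ 0 → √(d2 x y) = dist (bl x) (bl y) / 2 := by
    intro x y hx hy
    have h := bl_dist x y hx hy
    rw [Real.sqrt_eq_iff_mul_self_eq (d2_mem x y).1 (by positivity)]
    nlinarith
  rw [key v w hv hw, key v u hv hu, key u w hu hw]
  have := dist_triangle (bl v) (bl u) (bl w)
  linarith

/-! ### unitary maps -/

/-- a `2 × 2` unitary matrix -/
structure Un where
  /-- entry -/
  a : ℂ
  /-- entry -/
  b : ℂ
  /-- entry -/
  c : ℂ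
  /-- entry -/
  d : ℂ
  ha : a * conj a + b * conj b = 1
  hc : c * conj c + d * conj d = 1
  hac : a * conj c + b * conj d = 0

namespace Un

/-- the action on `ℂ²` -/
def act (g : Un) (v : Om) : Om := (g.a * v.1 + g.b * v.2, g.c * v.1 + g.d * v.2)

lemma mat (g : Un) : conj g.a * g.a + conj g.c * g.c = 1 ∧ conj g.b * g.b + conj g.d * g.d = 1 ∧
    conj g.a * g.b + conj g.c * g.d = 0 ∧ conj g.b * g.a + conj g.d * g.c = 0 := by
  obtain ⟨a, b, c, d, ha, hc, hac⟩ := g
  have hac' : c * conj a + d * conj b = 0 := by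
    have := congrArg (starRingEnd ℂ) hac
    simp only [map_add, map_mul, Complex.conj_conj, map_zero] at this
    rw [← this]; ring
  have hm := (mul_eq_one_comm (a := (!![a, b; c, d] : Matrix (Fin 2) (Fin 2) ℂ))
    (b := (!![a, b; c, d] : Matrix (Fin 2) (Fin 2) ℂ).conjTranspose)).1 (by
      ext i j
      fin_cases i <;> fin_cases j <;>
        simp [Matrix.mul_apply, Fin.sum_univ_two, Matrix.conjTranspose_apply, ha, hc, hac',
          hac] )
  refine ⟨?_, ?_, ?_, ?_⟩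
  · have := congrFun (congrFun hm 0) 0
    simpa [Matrix.mul_apply, Fin.sum_univ_two, Matrix.conjTranspose_apply] using this
  · have := congrFun (congrFun hm 1) 1
    simpa [Matrix.mul_apply, Fin.sum_univ_two, Matrix.conjTranspose_apply] using this
  · have := congrFun (congrFun hm 0) 1
    simpa [Matrix.mul_apply, Fin.sum_univ_two, Matrix.conjTranspose_apply] using this
  · have := congrFun (congrFun hm 1) 0
    simpa [Matrix.mul_apply, Fin.sum_univ_two, Matrix.conjTranspose_apply] using this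

lemma hp_act (g : Un) (v w : Om) : hp (g.act v) (g.act w) = hp v w := by
  obtain ⟨e1, e2, e3, e4⟩ := g.mat
  simp only [hp, act, map_add, map_mul]
  linear_combination (v.1 * conj w.1) * e1 + (v.2 * conj w.2) * e2 + (v.2 * conj w.1) * e3 +
    (v.1 * conj w.2) * e4

lemma nn2_act (g : Un) (v : Om) : nn2 (g.act v) = nn2 v := by
  have h := g.hp_act v v
  rw [hp_self, hp_self] at h
  exact_mod_cast h

lemma d2_act (g : Un) (v w : Om) : d2 (g.act v) (g.act w) = d2 v w := by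
  unfold d2
  rw [hp_act, nn2_act, nn2_act]

/-- the inverse -/
def inv (g : Un) : Un where
  a := conj g.a
  b := conj g.c
  c := conj g.b
  d := conj g.d
  ha := by rw [Complex.conj_conj, Complex.conj_conj]; exact g.mat.1
  hc := by rw [Complex.conj_conj, Complex.conj_conj]; exact g.mat.2.1
  hac := by rw [Complex.conj_conj, Complex.conj_conj]; exact g.mat.2.2.1

lemma act_inv (g : Un) (v : Om) : g.act (g.inv.act v) = v := by
  have hac' : g.c * conj g.a + g.d * conj g.b = 0 := by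
    have := congrArg (starRingEnd ℂ) g.hac
    simp only [map_add, map_mul, Complex.conj_conj, map_zero] at this
    rw [← this]; ring
  have ha := g.ha
  have hc := g.hc
  have hac := g.hac
  ext
  · simp only [act, inv]
    linear_combination v.1 * ha + v.2 * hac
  · simp only [act, inv]
    linear_combination v.1 * hac' + v.2 * hc

lemma inv_act (g : Un) (v : Om) : g.inv.act (g.act v) = v := by
  obtain ⟨e1, e2, e3, e4⟩ := g.mat
  ext
  · simp only [act, inv]
    linear_combination v.1 * e1 + v.2 * e3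
  · simp only [act, inv]
    linear_combination v.1 * e4 + v.2 * e2

lemma meas_act (g : Un) : Measurable g.act := by
  unfold act; fun_prop

lemma mp (g : Un) : MeasurePreserving g.act sg sg := by
  let L : Om →ₗ[ℝ] Om :=
    { toFun := g.act
      map_add' := by
        intro x y
        simp only [act, Prod.fst_add, Prod.snd_add, Prod.mk_add_mk]
        congr 1 <;> ring
      map_smul' := by
        intro r x
        simp only [act, Prod.smul_fst, Prod.smul_snd, RingHom.id_apply, Prod.smul_mk, smul_add,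
          Complex.real_smul]
        congr 1 <;> ring }
  have hinj : Function.Injective L := fun x y h => by
    have h1 := congrArg g.inv.act h
    change g.inv.act (g.act x) = g.inv.act (g.act y) at h1
    rwa [inv_act, inv_act] at h1
  have hd : sg = (volume : Measure Om).withDensity (fun x => Base.dc x.1 * Base.dc x.2) := by
    have : SigmaFinite ((volume : Measure ℂ).withDensity Base.dc) := by
      rw [← Base.cg_eq]; infer_instance
    rw [sg, Base.cg_eq, prod_withDensity Base.measurable_dc Base.measurable_dc]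
    rfl
  have hp : IsProbabilityMeasure ((volume : Measure Om).withDensity
      (fun x => Base.dc x.1 * Base.dc x.2)) := by
    rw [← hd]; infer_instance
  have : (volume : Measure Om).IsAddHaarMeasure := Measure.prod.instIsAddHaarMeasure _ _
  have h := Base.iso (volume : Measure Om) (fun x => Base.dc x.1 * Base.dc x.2)
    ((Base.measurable_dc.comp measurable_fst).mul (Base.measurable_dc.comp measurable_snd)) hp L hinj
    (fun x => by
      unfold Base.dc
      rw [← ENNReal.ofReal_mul (by positivity), ← ENNReal.ofReal_mul (by positivity)]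
      congr 1
      rw [div_mul_div_comm, div_mul_div_comm, ← Real.exp_add, ← Real.exp_add]
      congr 2
      have := g.nn2_act x
      unfold nn2 at this
      change -‖(g.act x).1‖ ^ 2 + -‖(g.act x).2‖ ^ 2 = _
      linarith)
  rw [hd]
  exact h

end Un

/-! ### the law of the distance -/

lemma cg_radial (F : ℝ → ℝ≥0∞) (hF : Measurable F) :
    ∫⁻ w, F (‖w‖ ^ 2) ∂cg = ∫⁻ s in Set.Ioi (0 : ℝ), F s * ENNReal.ofReal (Real.exp (-s)) := by
  rw [Base.cg_eq, lintegral_withDensity_eq_lintegral_mul _ Base.measurable_dc (by fun_prop),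
    ← Complex.lintegral_comp_polarCoord_symm]
  have h1 : ∀ p ∈ polarCoord.target, ENNReal.ofReal p.1 • (Base.dc * fun w : ℂ => F (‖w‖ ^ 2) : ℂ → ℝ≥0∞)
      (Complex.polarCoord.symm p) = ENNReal.ofReal (p.1 * Real.exp (-p.1 ^ 2) / Real.pi) *
        F (p.1 ^ 2) := by
    intro p hp
    have hp1 : 0 < p.1 := by
      rw [polarCoord_target] at hp
      exact hp.1
    have hn : ‖Complex.polarCoord.symm p‖ = p.1 := by
      rw [Complex.norm_polarCoord_symm, abs_of_pos hp1]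
    simp only [Pi.mul_apply, Base.dc, hn, smul_eq_mul]
    rw [← mul_assoc, ← ENNReal.ofReal_mul hp1.le, mul_div_assoc]
  have hT : MeasurableSet polarCoord.target := by
    rw [polarCoord_target]; exact measurableSet_Ioi.prod measurableSet_Ioo
  rw [setLIntegral_congr_fun hT h1, polarCoord_target, Measure.volume_eq_prod,
    ← Measure.prod_restrict, lintegral_prod _ (by fun_prop)]
  simp only [lintegral_const, Measure.restrict_apply_univ, Real.volume_Ioo]
  have himg : (fun r : ℝ => r ^ 2) '' (Set.Ioi 0) = Set.Ioi 0 := by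
    ext r
    constructor
    · rintro ⟨ρ, hρ, rfl⟩
      have h0 : (0 : ℝ) < ρ := hρ
      exact (by positivity : (0 : ℝ) < ρ ^ 2)
    · intro hr
      have hr' : (0 : ℝ) < r := hr
      exact ⟨√r, Real.sqrt_pos.2 hr', Real.sq_sqrt hr'.le⟩
  have hder : ∀ r ∈ Set.Ioi (0 : ℝ), HasDerivWithinAt (fun r : ℝ => r ^ 2) (2 * r)
      (Set.Ioi 0) r := by
    intro r _
    simpa using (hasDerivAt_pow 2 r).hasDerivWithinAt
  have hinj : Set.InjOn (fun r : ℝ => r ^ 2) (Set.Ioi 0) := by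
    intro x hx y hy hxy
    have hx0 : (0 : ℝ) < x := hx
    have hy0 : (0 : ℝ) < y := hy
    have h1 : x ^ 2 = y ^ 2 := hxy
    nlinarith
  conv_rhs => rw [← himg]
  rw [lintegral_image_eq_lintegral_abs_deriv_mul measurableSet_Ioi hder hinj]
  refine setLIntegral_congr_fun measurableSet_Ioi fun r hr => ?_
  have h0 : (0 : ℝ) < r := hr
  rw [abs_of_pos (by positivity : (0 : ℝ) < 2 * r), mul_comm (F (r ^ 2)), ← mul_assoc,
    ← ENNReal.ofReal_mul (by positivity), mul_comm _ (F (r ^ 2)), mul_assoc,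
    ← ENNReal.ofReal_mul (by positivity), mul_comm (F (r ^ 2))]
  congr 2
  have := Real.pi_ne_zero
  field_simp
  ring

lemma lint_gam {x : ℝ} (hx : 0 < x) :
    ∫⁻ s in Set.Ioi (0 : ℝ), ENNReal.ofReal (s / x ^ 2 * Real.exp (-(s / x))) = 1 := by
  have h := Real.integral_rpow_mul_exp_neg_mul_Ioi (a := 2) (r := 1 / x) (by norm_num)
    (by positivity)
  have e1 : (1 / (1 / x)) ^ (2 : ℝ) * Real.Gamma 2 = x ^ 2 := by
    rw [Real.Gamma_two, one_div_one_div, Real.rpow_two, mul_one]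
  rw [e1] at h
  have hi : Integrable (fun t : ℝ => t ^ ((2 : ℝ) - 1) * Real.exp (-(1 / x * t)))
      (volume.restrict (Set.Ioi (0 : ℝ))) := by
    by_contra hc
    rw [integral_undef hc] at h
    exact (by positivity : x ^ 2 ≠ 0) h.symm
  have h2 : ∫ s in Set.Ioi (0 : ℝ), s / x ^ 2 * Real.exp (-(s / x)) = 1 := by
    have : ∀ s ∈ Set.Ioi (0 : ℝ), s / x ^ 2 * Real.exp (-(s / x)) =
        (x ^ 2)⁻¹ * (s ^ ((2 : ℝ) - 1) * Real.exp (-(1 / x * s))) := by
      intro s hs
      rw [show (2 : ℝ) - 1 = 1 by norm_num, Real.rpow_one]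
      rw [show 1 / x * s = s / x by ring]
      ring
    rw [setIntegral_congr_fun measurableSet_Ioi this, integral_const_mul, h]
    field_simp
  have hi2 : Integrable (fun s : ℝ => s / x ^ 2 * Real.exp (-(s / x)))
      (volume.restrict (Set.Ioi (0 : ℝ))) := by
    by_contra hc
    rw [integral_undef hc] at h2
    exact zero_ne_one h2
  rw [← ofReal_integral_eq_lintegral_ofReal hi2, h2, ENNReal.ofReal_one]
  filter_upwards [ae_restrict_mem measurableSet_Ioi] with t ht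
  have : (0 : ℝ) < t := ht
  positivity

lemma inner_sub {s : ℝ} (hs : 0 < s) (f : ℝ → ℝ≥0∞) :
    (∫⁻ t in Set.Ioi (0 : ℝ), f (s / (s + t)) * ENNReal.ofReal (Real.exp (-t))) *
      ENNReal.ofReal (Real.exp (-s)) =
      ∫⁻ x in Set.Ioo (0 : ℝ) 1, f x * ENNReal.ofReal (s / x ^ 2 * Real.exp (-(s / x))) := by
  have himg : (fun x : ℝ => s / x - s) '' (Set.Ioo 0 1) = Set.Ioi 0 := by
    ext t
    constructor
    · rintro ⟨x, ⟨hx0, hx1⟩, rfl⟩
      have : s < s / x := by
        rw [lt_div_iff₀ hx0]; nlinarith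
      exact sub_pos.2 this
    · intro ht
      have ht' : (0 : ℝ) < t := ht
      refine ⟨s / (s + t), ⟨by positivity, ?_⟩, ?_⟩
      · rw [div_lt_one (by positivity)]; linarith
      · simp only
        field_simp
        ring
  have hder : ∀ x ∈ Set.Ioo (0 : ℝ) 1, HasDerivWithinAt (fun x : ℝ => s / x - s) (-(s / x ^ 2))
      (Set.Ioo 0 1) x := by
    intro x hx
    have h1 : HasDerivAt (fun x : ℝ => s / x - s) (-(s / x ^ 2)) x := by
      have h2 := ((hasDerivAt_inv hx.1.ne').const_mul s).sub_const s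
      have h3 : s * -(x ^ 2)⁻¹ = -(s / x ^ 2) := by ring
      rw [h3] at h2
      exact h2
    exact h1.hasDerivWithinAt
  have hinj : Set.InjOn (fun x : ℝ => s / x - s) (Set.Ioo 0 1) := by
    intro x hx y hy hxy
    have h1 : s / x = s / y := by
      have : s / x - s = s / y - s := hxy
      linarith
    have hx0 := hx.1
    have hy0 := hy.1
    field_simp at h1
    exact h1.symm
  rw [← himg, lintegral_image_eq_lintegral_abs_deriv_mul measurableSet_Ioo hder hinj,
    ← lintegral_mul_const' _ _ ENNReal.ofReal_ne_top]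
  refine setLIntegral_congr_fun measurableSet_Ioo fun x hx => ?_
  have hx0 := hx.1
  have e1 : s / (s + (s / x - s)) = x := by
    field_simp
    ring
  rw [e1, abs_neg, abs_of_pos (by positivity), mul_comm (ENNReal.ofReal (s / x ^ 2)), mul_assoc,
    mul_assoc, ← ENNReal.ofReal_mul (by positivity), ← ENNReal.ofReal_mul (by positivity)]
  congr 2
  rw [mul_left_comm, ← Real.exp_add]
  congr 2
  ring

/-- the ratio of two independent exponential variables is uniform -/
lemma unif (f : ℝ → ℝ≥0∞) (hf : Measurable f) :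
    ∫⁻ s in Set.Ioi (0 : ℝ), (∫⁻ t in Set.Ioi (0 : ℝ), f (s / (s + t)) *
      ENNReal.ofReal (Real.exp (-t))) * ENNReal.ofReal (Real.exp (-s)) =
      ∫⁻ x in Set.Icc (0 : ℝ) 1, f x := by
  rw [setLIntegral_congr_fun measurableSet_Ioi (fun s hs => inner_sub hs f),
    lintegral_lintegral_swap (by fun_prop), ← setLIntegral_congr Ioo_ae_eq_Icc]
  refine setLIntegral_congr_fun measurableSet_Ioo fun x hx => ?_
  rw [lintegral_const_mul _ (by fun_prop), lint_gam hx.1, mul_one]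

lemma law0 (f : ℝ → ℝ≥0∞) (hf : Measurable f) :
    ∫⁻ v : Om, f (‖v.1‖ ^ 2 / (‖v.1‖ ^ 2 + ‖v.2‖ ^ 2)) ∂sg = ∫⁻ t in Set.Icc (0 : ℝ) 1, f t := by
  rw [sg, lintegral_prod _ (by fun_prop), ← unif f hf]
  have h1 : ∀ s : ℝ, ∫⁻ y : ℂ, f (s / (s + ‖y‖ ^ 2)) ∂cg =
      ∫⁻ t in Set.Ioi (0 : ℝ), f (s / (s + t)) * ENNReal.ofReal (Real.exp (-t)) := by
    intro s
    exact cg_radial (fun t => f (s / (s + t))) (by fun_prop)
  simp only [h1]
  refine cg_radial (fun s => ∫⁻ t in Set.Ioi (0 : ℝ), f (s / (s + t)) *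
    ENNReal.ofReal (Real.exp (-t))) ?_
  exact Measurable.lintegral_prod_right' (f := fun p : ℝ × ℝ => f (p.1 / (p.1 + p.2)) *
    ENNReal.ofReal (Real.exp (-p.2))) (by fun_prop)

/-- the unitary map sending the direction of `w` to the second coordinate vector -/
def toE (w : Om) (hw : nn2 w ≠ 0) : Un where
  a := w.2 / ((√(nn2 w) : ℝ) : ℂ)
  b := -w.1 / ((√(nn2 w) : ℝ) : ℂ)
  c := conj w.1 / ((√(nn2 w) : ℝ) : ℂ)
  d := conj w.2 / ((√(nn2 w) : ℝ) : ℂ)
  ha := by
    have h1 : ((√(nn2 w) : ℝ) : ℂ) ≠ 0 := by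
      exact_mod_cast (Real.sqrt_pos.2 (nn2_pos hw)).ne'
    have h2 : ((√(nn2 w) : ℝ) : ℂ) * ((√(nn2 w) : ℝ) : ℂ) = ((nn2 w : ℝ) : ℂ) := by
      rw [← Complex.ofReal_mul, Real.mul_self_sqrt (nn2_nonneg w)]
    have h3 := hp_self w
    unfold hp at h3
    simp only [map_div₀, Complex.conj_ofReal, map_neg]
    field_simp
    rw [sq, h2, ← h3]
    ring
  hc := by
    have h1 : ((√(nn2 w) : ℝ) : ℂ) ≠ 0 := by
      exact_mod_cast (Real.sqrt_pos.2 (nn2_pos hw)).ne'
    have h2 : ((√(nn2 w) : ℝ) : ℂ) * ((√(nn2 w) : ℝ) : ℂ) = ((nn2 w : ℝ) : ℂ) := by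
      rw [← Complex.ofReal_mul, Real.mul_self_sqrt (nn2_nonneg w)]
    have h3 := hp_self w
    unfold hp at h3
    simp only [map_div₀, Complex.conj_ofReal, Complex.conj_conj]
    field_simp
    rw [sq, h2, ← h3]
    ring
  hac := by
    simp only [map_div₀, Complex.conj_ofReal, Complex.conj_conj]
    ring

lemma toE_snd (w : Om) (hw : nn2 w ≠ 0) (v : Om) :
    ((toE w hw).act v).2 = hp v w / ((√(nn2 w) : ℝ) : ℂ) := by
  simp only [toE, Un.act, hp]
  ring

lemma d2_toE (w : Om) (hw : nn2 w ≠ 0) (v : Om) (hv : nn2 v ≠ 0) :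
    d2 v w = ‖((toE w hw).act v).1‖ ^ 2 / (‖((toE w hw).act v).1‖ ^ 2 +
      ‖((toE w hw).act v).2‖ ^ 2) := by
  have h1 := (toE w hw).nn2_act v
  have h2 : ‖((toE w hw).act v).2‖ ^ 2 = ‖hp v w‖ ^ 2 / nn2 w := by
    rw [toE_snd, norm_div, Complex.norm_real, Real.norm_of_nonneg (Real.sqrt_nonneg _), div_pow,
      Real.sq_sqrt (nn2_nonneg w)]
  have h3 : ‖((toE w hw).act v).1‖ ^ 2 = nn2 v - ‖hp v w‖ ^ 2 / nn2 w := by
    rw [← h1, ← h2, nn2]; ring
  rw [h2, h3, sub_add_cancel, d2]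
  field_simp

lemma ae_ne : ∀ᵐ v ∂sg, nn2 v ≠ 0 := by
  rw [ae_iff]
  have h1 : {v : Om | ¬ nn2 v ≠ 0} ⊆ ({0} : Set ℂ) ×ˢ Set.univ := by
    intro v hv
    simp only [ne_eq, not_not, Set.mem_ofPred_eq] at hv
    unfold nn2 at hv
    have : ‖v.1‖ ^ 2 = 0 := by nlinarith [sq_nonneg ‖v.1‖, sq_nonneg ‖v.2‖]
    simp only [Set.mem_prod, Set.mem_singleton_iff, Set.mem_univ, and_true]
    simpa using this
  refine measure_mono_null h1 ?_
  rw [sg, Measure.prod_prod]
  have h2 : cg {0} = 0 := by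
    rw [cg]
    exact (withDensity_absolutelyContinuous _ _) (by simp)
  rw [h2, zero_mul]

lemma law (w : Om) (hw : nn2 w ≠ 0) (f : ℝ → ℝ≥0∞) (hf : Measurable f) :
    ∫⁻ v, f (d2 v w) ∂sg = ∫⁻ t in Set.Icc (0 : ℝ) 1, f t := by
  rw [← law0 f hf, ← (toE w hw).mp.lintegral_comp
    (f := fun v : Om => f (‖v.1‖ ^ 2 / (‖v.1‖ ^ 2 + ‖v.2‖ ^ 2))) (by fun_prop)]
  refine lintegral_congr_ae ?_
  filter_upwards [ae_ne] with v hv
  rw [d2_toE w hw v hv]

theorem ker : S_KER :=
  ⟨fun n v w _ _ => ker1 n v w, fun n v w _ _ => ker2 n v w, ker3, meas_ph, ae_ne, meas_d2, d2_mem,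
    fun v w u hv hw hu => d2_tri v w u hv hw hu, fun w hw f hf => law w hw f hf⟩

end

end Pool.Agent.P8H53.FM
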