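import Pool.Agent.P8H53.FM.Ker

/-!
Project FM, package ONB (helper53): orthonormality of the coherent states, radial symbols are
diagonal, unitary equivalence.
-/

set_option autoImplicit false

open MeasureTheory Complex Filter Topology
open scoped ENNReal NNReal ComplexConjugate

namespace Pool.Agent.P8H53.FM

open Pool.Agent.R923.SE Pool.Agent.P8H98.FM

noncomputable section

/-! ### integrability -/

lemma ph_le (n : ℕ) (v : Om) (hv : nn2 v ≠ 0) (i : Fin n) : ‖ph n v i‖ ^ 2 ≤ n := by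
  rw [← ker3 n v hv]
  exact Finset.single_le_sum (f := fun i => ‖ph n v i‖ ^ 2) (fun _ _ => by positivity)
    (Finset.mem_univ i)

lemma phph_le (n : ℕ) (v : Om) (hv : nn2 v ≠ 0) (i j : Fin n) :
    ‖ph n v i * conj (ph n v j)‖ ≤ n := by
  rw [norm_mul, RCLike.norm_conj]
  have h1 := ph_le n v hv i
  have h2 := ph_le n v hv j
  nlinarith [sq_nonneg (‖ph n v i‖ - ‖ph n v j‖)]

lemma meas_phph (n : ℕ) (i j : Fin n) : Measurable fun v => ph n v i * conj (ph n v j) :=
  (meas_ph n i).mul (Complex.continuous_conj.measurable.comp (meas_ph n j))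

lemma int_phph (n : ℕ) {h : Om → ℂ} (hh : Integrable h sg) (i j : Fin n) :
    Integrable (fun v => h v * (ph n v i * conj (ph n v j))) sg := by
  refine hh.mul_bdd (c := n) (meas_phph n i j).aestronglyMeasurable ?_
  filter_upwards [ae_ne] with v hv
  exact phph_le n v hv i j

/-- `K(v, w)` -/
def kk (n : ℕ) (v w : Om) : ℂ := ∑ j, conj (ph n v j) * ph n w j

lemma kk_act (n : ℕ) (g : Un) (v w : Om) : kk n (g.act v) (g.act w) = kk n v w := by
  unfold kk
  rw [ker1, ker1, g.hp_act, g.nn2_act, g.nn2_act]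

lemma meas_d2l (w : Om) : Measurable fun v => d2 v w := by
  unfold d2 hp nn2
  have : Measurable fun p : Om => p.1 * conj w.1 + p.2 * conj w.2 := by
    have hc : Continuous fun p : Om => p.1 * conj w.1 + p.2 * conj w.2 := by
      fun_prop
    exact hc.measurable
  fun_prop

/-- the law of the distance, as a measure preserving map -/
lemma mp_d2 (w : Om) (hw : nn2 w ≠ 0) :
    MeasurePreserving (fun v => d2 v w) sg (volume.restrict (Set.Icc (0 : ℝ) 1)) := by
  have hm := meas_d2l w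
  refine ⟨hm, ?_⟩
  ext s hs
  rw [Measure.map_apply hm hs]
  have h := law w hw (s.indicator 1) (measurable_one.indicator hs)
  rw [lintegral_indicator_one hs] at h
  rw [← h, ← lintegral_indicator_one (hm hs)]
  rfl

/-! ### the case of the second coordinate vector -/

/-- the second coordinate vector -/
def e2 : Om := (0, 1)

lemma nn2_e2 : nn2 e2 ≠ 0 := by simp [nn2, e2]

/-- the diagonal unitary map -/
def rot (t : ℝ) : Un where
  a := cexp (t * I)
  b := 0
  c := 0
  d := 1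
  ha := by
    rw [← Complex.exp_conj, ← Complex.exp_add]
    simp
  hc := by simp
  hac := by simp

lemma ph_rot (n : ℕ) (t : ℝ) (v : Om) (j : Fin n) :
    ph n ((rot t).act v) j = cexp ((j : ℕ) * (t * I)) * ph n v j := by
  have h1 : ((rot t).act v).1 = cexp (t * I) * v.1 := by simp [rot, Un.act]
  have h2 : ((rot t).act v).2 = v.2 := by simp [rot, Un.act]
  rw [Complex.exp_nat_mul]
  unfold ph
  rw [(rot t).nn2_act, h1, h2, mul_pow]
  ring

lemma d2_rot (t : ℝ) (v : Om) : d2 ((rot t).act v) e2 = d2 v e2 := by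
  have h : (rot t).act e2 = e2 := by simp [rot, Un.act, e2]
  conv_lhs => rw [← h]
  exact (rot t).d2_act v e2

lemma offdiag (n : ℕ) (f : ℝ → ℂ) (i j : Fin n) (hij : i ≠ j) (hf : Measurable f) :
    TT n (fun v => f (d2 v e2)) i j = 0 := by
  have hm := meas_d2l e2
  have hne : (((i : ℕ) : ℝ) - ((j : ℕ) : ℝ)) ≠ 0 := by
    intro h
    apply hij
    apply Fin.ext
    have : ((i : ℕ) : ℝ) = ((j : ℕ) : ℝ) := by linarith
    exact_mod_cast this
  set t : ℝ := Real.pi / (((i : ℕ) : ℝ) - ((j : ℕ) : ℝ)) with ht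
  have h1 : TT n (fun v => f (d2 v e2)) i j = -TT n (fun v => f (d2 v e2)) i j := by
    conv_lhs => simp only [TT, Matrix.of_apply]
    have h2 : ∫ v, f (d2 v e2) * (ph n v i * conj (ph n v j)) ∂sg =
        ∫ v, f (d2 ((rot t).act v) e2) * (ph n ((rot t).act v) i *
          conj (ph n ((rot t).act v) j)) ∂sg := by
      have h3 := integral_map (μ := sg) (φ := (rot t).act) (rot t).meas_act.aemeasurable
        (f := fun v => f (d2 v e2) * (ph n v i * conj (ph n v j)))
        ((hf.comp hm).mul (meas_phph n i j)).aestronglyMeasurable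
      rw [(rot t).mp.map_eq] at h3
      exact h3
    rw [h2]
    simp only [TT, Matrix.of_apply]
    rw [← integral_neg]
    refine integral_congr_ae (Filter.Eventually.of_forall fun v => ?_)
    simp only
    rw [d2_rot, ph_rot, ph_rot, map_mul, ← Complex.exp_conj]
    have e : cexp (((i : ℕ) : ℂ) * (t * I)) * cexp (conj (((j : ℕ) : ℂ) * (t * I))) = -1 := by
      rw [← Complex.exp_add]
      have e1 : ((i : ℕ) : ℂ) * (t * I) + conj (((j : ℕ) : ℂ) * (t * I)) = Real.pi * I := by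
        simp only [map_mul, Complex.conj_I, Complex.conj_ofReal, Complex.conj_natCast]
        have e2 : (t : ℂ) * (((i : ℕ) : ℂ) - ((j : ℕ) : ℂ)) = Real.pi := by
          have : t * (((i : ℕ) : ℝ) - ((j : ℕ) : ℝ)) = Real.pi := by
            rw [ht]; field_simp
          exact_mod_cast this
        linear_combination I * e2
      rw [e1, Complex.exp_pi_mul_I]
    linear_combination (f (d2 v e2) * (ph n v i * conj (ph n v j))) * e
  have h2 : (2 : ℂ) * TT n (fun v => f (d2 v e2)) i j = 0 := by linear_combination h1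
  simpa using h2

lemma d2_e2 (v : Om) (hv : nn2 v ≠ 0) : d2 v e2 = ‖v.1‖ ^ 2 / nn2 v := by
  have h1 : hp v e2 = v.2 := by simp [hp, e2]
  have h2 : nn2 e2 = 1 := by simp [nn2, e2]
  rw [d2, h1, h2, mul_one]
  field_simp
  rw [nn2]; ring

lemma ph_bd (n : ℕ) (v : Om) (hv : nn2 v ≠ 0) (i : Fin n) :
    ph n v i * conj (ph n v i) = ((bd n i (d2 v e2) : ℝ) : ℂ) := by
  have hi : (i : ℕ) + (n - 1 - (i : ℕ)) = n - 1 := by omega
  have h1 : 1 - d2 v e2 = ‖v.2‖ ^ 2 / nn2 v := by
    rw [d2_e2 v hv]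
    field_simp
    rw [nn2]; ring
  rw [Complex.mul_conj', bd, h1, d2_e2 v hv]
  norm_cast
  rw [ph, norm_div, norm_mul, norm_mul, norm_pow, norm_pow, Complex.norm_real, Complex.norm_real,
    Real.norm_of_nonneg (Real.sqrt_nonneg _), Real.norm_of_nonneg (by positivity), div_pow, mul_pow,
    mul_pow, Real.sq_sqrt (by positivity), ← pow_mul, ← pow_mul, ← pow_mul, div_pow, div_pow]
  have e1 : √(nn2 v) ^ ((n - 1) * 2) = nn2 v ^ (i : ℕ) * nn2 v ^ (n - 1 - (i : ℕ)) := by
    rw [← pow_add, hi, mul_comm, pow_mul, Real.sq_sqrt (nn2_nonneg v)]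
  rw [e1, mul_comm (i : ℕ) 2, mul_comm (n - 1 - (i : ℕ)) 2, pow_mul, pow_mul]
  have := hv
  push_cast
  field_simp

lemma diag (n : ℕ) (f : ℝ → ℂ) (i : Fin n) (hf : Measurable f) :
    TT n (fun v => f (d2 v e2)) i i = lam n f i := by
  simp only [TT, Matrix.of_apply, lam]
  rw [intervalIntegral.integral_of_le zero_le_one, ← integral_Icc_eq_integral_Ioc,
    ← (mp_d2 e2 nn2_e2).map_eq, integral_map (mp_d2 e2 nn2_e2).measurable.aemeasurable]
  · refine integral_congr_ae ?_
    filter_upwards [ae_ne] with v hv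
    rw [ph_bd n v hv, mul_comm]
  · have : Measurable fun x => ((bd n i x : ℝ) : ℂ) * f x := by
      unfold bd
      fun_prop
    exact this.aestronglyMeasurable

lemma TT_e2 (n : ℕ) (f : ℝ → ℂ) (hf : Measurable f) :
    TT n (fun v => f (d2 v e2)) = Matrix.diagonal fun j : Fin n => lam n f j := by
  ext i j
  by_cases hij : i = j
  · subst hij
    rw [Matrix.diagonal_apply_eq, diag n f i hf]
  · rw [Matrix.diagonal_apply_ne _ hij, offdiag n f i j hij hf]

lemma beta_nat (m k : ℕ) : ∫ x in (0 : ℝ)..1, ((x ^ m * (1 - x) ^ k : ℝ) : ℂ) =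
    (m.factorial : ℂ) * k.factorial / (m + k + 1).factorial := by
  have h := Complex.betaIntegral_eq_Gamma_mul_div ((m : ℂ) + 1) ((k : ℂ) + 1) (by
    simp only [Complex.add_re, Complex.natCast_re, Complex.one_re]; positivity) (by
    simp only [Complex.add_re, Complex.natCast_re, Complex.one_re]; positivity)
  rw [Complex.Gamma_nat_eq_factorial, Complex.Gamma_nat_eq_factorial,
    show (m : ℂ) + 1 + ((k : ℂ) + 1) = ((m + k + 1 : ℕ) : ℂ) + 1 by push_cast; ring,
    Complex.Gamma_nat_eq_factorial] at h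
  rw [← h, Complex.betaIntegral]
  refine intervalIntegral.integral_congr fun x _ => ?_
  simp only [add_sub_cancel_right, Complex.cpow_natCast]
  push_cast
  rfl

lemma lam_one (n : ℕ) (j : Fin n) : lam n (fun _ => 1) j = 1 := by
  have hj : (j : ℕ) + (n - 1 - (j : ℕ)) + 1 = n := by omega
  have h := beta_nat (j : ℕ) (n - 1 - (j : ℕ))
  rw [hj] at h
  have h1 : lam n (fun _ => 1) j = ((n : ℂ) * (n - 1).choose j) *
      ∫ x in (0 : ℝ)..1, ((x ^ (j : ℕ) * (1 - x) ^ (n - 1 - (j : ℕ)) : ℝ) : ℂ) := by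
    rw [lam, ← intervalIntegral.integral_const_mul]
    refine intervalIntegral.integral_congr fun x _ => ?_
    simp only [bd]
    push_cast
    ring
  rw [h1, h]
  have h2 : (n - 1).choose j * (j : ℕ).factorial * (n - 1 - (j : ℕ)).factorial =
      (n - 1).factorial := Nat.choose_mul_factorial_mul_factorial (by omega)
  have h3 : n.factorial = n * (n - 1).factorial := by
    obtain ⟨m, rfl⟩ : ∃ m, n = m + 1 := ⟨n - 1, by omega⟩
    rw [Nat.factorial_succ, Nat.add_sub_cancel]
  have h4 : (n.factorial : ℂ) = n * ((n - 1).choose j * (j : ℕ).factorial *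
      (n - 1 - (j : ℕ)).factorial) := by
    rw [h3, ← h2]; push_cast; ring
  have h5 : (n.factorial : ℂ) ≠ 0 := by exact_mod_cast n.factorial_ne_zero
  rw [mul_div_assoc', div_eq_one_iff_eq h5, h4]
  ring

/-- the coherent states are orthonormal -/
lemma onb1 (n : ℕ) : TT n (fun _ => 1) = 1 := by
  have h := TT_e2 n (fun _ => 1) measurable_const
  rw [h, ← Matrix.diagonal_one]
  congr 1
  funext j
  exact lam_one n j

/-! ### unitary equivalence -/

/-- change of variables -/
lemma int_act (g : Un) (F : Om → ℂ) (hF : AEStronglyMeasurable F sg) :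
    ∫ v, F (g.act v) ∂sg = ∫ v, F v ∂sg := by
  have h3 := integral_map (μ := sg) (φ := g.act) g.meas_act.aemeasurable
    (f := F) (by rw [g.mp.map_eq]; exact hF)
  rw [g.mp.map_eq] at h3
  exact h3.symm

/-- the unitary matrix of `g` -/
def uu (n : ℕ) (g : Un) : Matrix (Fin n) (Fin n) ℂ :=
  Matrix.of fun i j => ∫ v, ph n (g.act v) i * conj (ph n v j) ∂sg

lemma meas_ph_act (n : ℕ) (g : Un) (i : Fin n) : Measurable fun v => ph n (g.act v) i :=
  (meas_ph n i).comp g.meas_act

lemma int_uu (n : ℕ) (g : Un) (i j : Fin n) :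
    Integrable (fun v => ph n (g.act v) i * conj (ph n v j)) sg := by
  refine Integrable.of_bound (C := n) ?_ ?_
  · exact ((meas_ph_act n g i).mul
      (Complex.continuous_conj.measurable.comp (meas_ph n j))).aestronglyMeasurable
  · filter_upwards [ae_ne] with v hv
    rw [norm_mul, RCLike.norm_conj]
    have h1 := ph_le n (g.act v) (by rw [g.nn2_act]; exact hv) i
    have h2 := ph_le n v hv j
    nlinarith [sq_nonneg (‖ph n (g.act v) i‖ - ‖ph n v j‖)]

lemma int_ph1 (n : ℕ) (i j : Fin n) :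
    Integrable (fun v => ph n v i * conj (ph n v j)) sg := by
  have := int_phph n (h := fun _ => 1) (integrable_const _) i j
  simpa using this

lemma one_apply' (n : ℕ) (i j : Fin n) :
    ∫ v, ph n v i * conj (ph n v j) ∂sg = (1 : Matrix (Fin n) (Fin n) ℂ) i j := by
  rw [← onb1 n]
  simp [TT]

lemma uu_mulVec (n : ℕ) (g : Un) (w : Om) (i : Fin n) :
    ∑ j, uu n g i j * ph n w j = ph n (g.act w) i := by
  have h1 : ∑ j, uu n g i j * ph n w j = ∫ v, ph n (g.act v) i * kk n (g.act v) (g.act w) ∂sg := by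
    simp only [uu, Matrix.of_apply]
    simp_rw [← integral_mul_const]
    rw [← integral_finsetSum _ (fun j _ => (int_uu n g i j).mul_const _)]
    refine integral_congr_ae (Filter.Eventually.of_forall fun v => ?_)
    simp only
    rw [kk_act, kk, Finset.mul_sum]
    exact Finset.sum_congr rfl fun j _ => by ring
  have h2 : ∀ v, ph n v i * kk n v (g.act w) =
      ∑ j, ph n v i * conj (ph n v j) * ph n (g.act w) j := by
    intro v
    rw [kk, Finset.mul_sum]
    exact Finset.sum_congr rfl fun j _ => by ring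
  have hm : AEStronglyMeasurable (fun v => ph n v i * kk n v (g.act w)) sg := by
    simp_rw [h2]
    exact (Finset.measurable_sum _ fun j _ =>
      (meas_phph n i j).mul_const _).aestronglyMeasurable
  rw [h1, int_act g (fun v => ph n v i * kk n v (g.act w)) hm]
  simp_rw [h2]
  rw [integral_finsetSum _ (fun j _ => (int_ph1 n i j).mul_const _)]
  simp_rw [integral_mul_const, one_apply']
  simp [Matrix.one_apply]

/-- conjugation of Toeplitz matrices -/
lemma TT_act (n : ℕ) (g : Un) (k : Om → ℂ) (hk : Integrable k sg) :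
    TT n k = uu n g * TT n (fun v => k (g.act v)) * (uu n g).conjTranspose := by
  have hkg : Integrable (fun v => k (g.act v)) sg := g.mp.integrable_comp_of_integrable hk
  ext i j
  have h1 : TT n k i j = ∫ v, k (g.act v) * (ph n (g.act v) i * conj (ph n (g.act v) j)) ∂sg := by
    simp only [TT, Matrix.of_apply]
    exact (int_act g (fun v => k v * (ph n v i * conj (ph n v j)))
      (int_phph n hk i j).aestronglyMeasurable).symm
  rw [h1, Matrix.mul_apply]
  simp_rw [Matrix.mul_apply, Matrix.conjTranspose_apply, Finset.sum_mul]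
  simp only [TT, Matrix.of_apply]
  have h2 : ∀ v, k (g.act v) * (ph n (g.act v) i * conj (ph n (g.act v) j)) =
      ∑ l, ∑ m, uu n g i m * (k (g.act v) * (ph n v m * conj (ph n v l))) * star (uu n g j l) := by
    intro v
    rw [← uu_mulVec n g v i, ← uu_mulVec n g v j, map_sum, Finset.sum_mul_sum, Finset.mul_sum]
    simp_rw [Finset.mul_sum]
    rw [Finset.sum_comm]
    refine Finset.sum_congr rfl fun l _ => Finset.sum_congr rfl fun m _ => ?_
    rw [map_mul, ← starRingEnd_apply]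
    ring
  simp_rw [h2]
  have hi : ∀ l m : Fin n, Integrable (fun v => uu n g i m * (k (g.act v) *
      (ph n v m * conj (ph n v l))) * star (uu n g j l)) sg := fun l m =>
    ((int_phph n hkg m l).const_mul _).mul_const _
  rw [integral_finsetSum _ (fun l _ => integrable_finsetSum _ fun m _ => hi l m)]
  refine Finset.sum_congr rfl fun l _ => ?_
  rw [integral_finsetSum _ (fun m _ => hi l m)]
  refine Finset.sum_congr rfl fun m _ => ?_
  rw [integral_mul_const, integral_const_mul]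

lemma uu_unitary (n : ℕ) (g : Un) : uu n g * (uu n g).conjTranspose = 1 := by
  have h := TT_act n g (fun _ => 1) (integrable_const _)
  rw [onb1, Matrix.mul_one] at h
  exact h.symm

lemma uu_mem (n : ℕ) (g : Un) : uu n g ∈ Matrix.unitaryGroup (Fin n) ℂ :=
  Matrix.mem_unitaryGroup_iff.2 (uu_unitary n g)

lemma DD_act (n : ℕ) (g : Un) (k : Om → ℂ) (hk : Integrable k sg) :
    DD n k = DD n (fun v => k (g.act v)) := by
  have h1 := congrArg Matrix.det (uu_unitary n g)
  rw [Matrix.det_mul, Matrix.det_one] at h1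
  unfold DD
  rw [TT_act n g k hk, Matrix.det_mul, Matrix.det_mul]
  linear_combination (TT n (fun v => k (g.act v))).det * h1

lemma d2_smul_right (u w : Om) (c : ℂ) (hc : c ≠ 0) : d2 u (c * w.1, c * w.2) = d2 u w := by
  have h1 : hp u (c * w.1, c * w.2) = conj c * hp u w := by
    simp only [hp, map_mul]; ring
  have h2 : nn2 (c * w.1, c * w.2) = ‖c‖ ^ 2 * nn2 w := by
    simp only [nn2, norm_mul]; ring
  have h3 : ‖c‖ ≠ 0 := norm_ne_zero_iff.2 hc
  unfold d2
  rw [h1, h2, norm_mul, RCLike.norm_conj, mul_pow]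
  rw [show nn2 u * (‖c‖ ^ 2 * nn2 w) = ‖c‖ ^ 2 * (nn2 u * nn2 w) by ring,
    mul_div_mul_left _ _ (pow_ne_zero 2 h3)]

lemma int_d2 (w : Om) (hw : nn2 w ≠ 0) (f : ℝ → ℂ) (hf : IntegrableOn f (Set.Icc 0 1) volume) :
    Integrable (fun v => f (d2 v w)) sg :=
  (mp_d2 w hw).integrable_comp_of_integrable hf

lemma toE_self (p : Om) (hp' : nn2 p ≠ 0) :
    (toE p hp').act p = (((√(nn2 p) : ℝ) : ℂ) * e2.1, ((√(nn2 p) : ℝ) : ℂ) * e2.2) := by
  have h1 : ((√(nn2 p) : ℝ) : ℂ) ≠ 0 := by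
    exact_mod_cast (Real.sqrt_pos.2 (nn2_pos hp')).ne'
  have h2 : ((√(nn2 p) : ℝ) : ℂ) * ((√(nn2 p) : ℝ) : ℂ) = ((nn2 p : ℝ) : ℂ) := by
    rw [← Complex.ofReal_mul, Real.mul_self_sqrt (nn2_nonneg p)]
  ext
  · simp only [toE, Un.act, e2]
    ring
  · rw [toE_snd, hp_self, ← h2, e2]
    field_simp

lemma onb2 (n : ℕ) (p : Om) (hp' : nn2 p ≠ 0) : ∃ U : Matrix (Fin n) (Fin n) ℂ,
    U ∈ Matrix.unitaryGroup (Fin n) ℂ ∧ ∀ f : ℝ → ℂ, IntegrableOn f (Set.Icc 0 1) volume →
      Measurable f → TT n (fun v => f (d2 v p)) =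
        U * Matrix.diagonal (fun j : Fin n => lam n f j) * U.conjTranspose := by
  refine ⟨uu n (toE p hp').inv, uu_mem _ _, fun f hfi hf => ?_⟩
  rw [TT_act n (toE p hp').inv _ (int_d2 p hp' f hfi), ← TT_e2 n f hf]
  congr 3
  funext v
  have h1 : p = (toE p hp').inv.act ((toE p hp').act p) := ((toE p hp').inv_act p).symm
  have h2 : d2 ((toE p hp').inv.act v) p = d2 v e2 := by
    have h3 := (toE p hp').inv.d2_act v ((toE p hp').act p)
    rw [← h1] at h3
    rw [h3, toE_self]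
    refine d2_smul_right v e2 _ ?_
    exact_mod_cast (Real.sqrt_pos.2 (nn2_pos hp')).ne'
  rw [h2]

/-- reflections -/
def refl (x : Om) (hx : nn2 x ≠ 0) : Un where
  a := 1 - 2 * x.1 * conj x.1 / ((nn2 x : ℝ) : ℂ)
  b := -2 * x.1 * conj x.2 / ((nn2 x : ℝ) : ℂ)
  c := -2 * x.2 * conj x.1 / ((nn2 x : ℝ) : ℂ)
  d := 1 - 2 * x.2 * conj x.2 / ((nn2 x : ℝ) : ℂ)
  ha := by
    have h1 : ((nn2 x : ℝ) : ℂ) ≠ 0 := by exact_mod_cast hx
    have h2 : ((nn2 x : ℝ) : ℂ) = x.1 * conj x.1 + x.2 * conj x.2 := (hp_self x).symm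
    simp only [map_sub, map_one, map_div₀, map_mul, map_neg, Complex.conj_ofReal,
      Complex.conj_conj, map_ofNat]
    generalize ((nn2 x : ℝ) : ℂ) = N at *
    field_simp
    linear_combination (-4 * x.1 * conj x.1) * h2
  hc := by
    have h1 : ((nn2 x : ℝ) : ℂ) ≠ 0 := by exact_mod_cast hx
    have h2 : ((nn2 x : ℝ) : ℂ) = x.1 * conj x.1 + x.2 * conj x.2 := (hp_self x).symm
    simp only [map_sub, map_one, map_div₀, map_mul, map_neg, Complex.conj_ofReal,
      Complex.conj_conj, map_ofNat]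
    generalize ((nn2 x : ℝ) : ℂ) = N at *
    field_simp
    linear_combination (-4 * x.2 * conj x.2) * h2
  hac := by
    have h1 : ((nn2 x : ℝ) : ℂ) ≠ 0 := by exact_mod_cast hx
    have h2 : ((nn2 x : ℝ) : ℂ) = x.1 * conj x.1 + x.2 * conj x.2 := (hp_self x).symm
    simp only [map_sub, map_one, map_div₀, map_mul, map_neg, Complex.conj_ofReal,
      Complex.conj_conj, map_ofNat]
    generalize ((nn2 x : ℝ) : ℂ) = N at *
    field_simp
    linear_combination (-4 * x.1 * conj x.2) * h2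

lemma refl_act (x : Om) (hx : nn2 x ≠ 0) (v : Om) : (refl x hx).act v =
    (v.1 - 2 * hp v x / ((nn2 x : ℝ) : ℂ) * x.1, v.2 - 2 * hp v x / ((nn2 x : ℝ) : ℂ) * x.2) := by
  ext
  · simp only [refl, Un.act, hp]
    ring
  · simp only [refl, Un.act, hp]
    ring

lemma onb3_unit (v w : Om) (hv : nn2 v = 1) (hw : nn2 w = 1) (r : ℝ) (hr : hp v w = r)
    (n : ℕ) (F : ℝ × ℝ → ℂ) (hF : Integrable (fun u => F (d2 u v, d2 u w)) sg) :
    DD n (fun u => F (d2 u v, d2 u w)) = DD n (fun u => F (d2 u w, d2 u v)) := by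
  have hr' : hp w v = r := by rw [← hp_conj, hr, Complex.conj_ofReal]
  set x : Om := (v.1 - w.1, v.2 - w.2) with hxd
  have e1 : hp v x = 1 - r := by
    have : hp v x = hp v v - hp v w := by simp only [hp, hxd, map_sub]; ring
    rw [this, hp_self, hv, hr, Complex.ofReal_one]
  have e2 : hp w x = r - 1 := by
    have : hp w x = hp w v - hp w w := by simp only [hp, hxd, map_sub]; ring
    rw [this, hp_self, hw, hr', Complex.ofReal_one]
  have e3 : ((nn2 x : ℝ) : ℂ) = 2 - 2 * r := by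
    have : hp x x = hp v x - hp w x := by simp only [hp, hxd]; ring
    rw [← hp_self, this, e1, e2]; ring
  by_cases hx : nn2 x = 0
  · have h1 : v = w := by
      unfold nn2 at hx
      have h1 : ‖x.1‖ ^ 2 = 0 := by nlinarith [sq_nonneg ‖x.1‖, sq_nonneg ‖x.2‖]
      have h2 : ‖x.2‖ ^ 2 = 0 := by nlinarith [sq_nonneg ‖x.1‖, sq_nonneg ‖x.2‖]
      have h3 : x.1 = 0 := by simpa using h1
      have h4 : x.2 = 0 := by simpa using h2
      exact Prod.ext (sub_eq_zero.1 h3) (sub_eq_zero.1 h4)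
    rw [h1]
  · have hx' : ((nn2 x : ℝ) : ℂ) ≠ 0 := by exact_mod_cast hx
    have g1 : (refl x hx).act v = w := by
      rw [refl_act, e1, e3]
      rw [e3] at hx'
      have : 2 * (1 - (r : ℂ)) / (2 - 2 * r) = 1 := by
        rw [div_eq_one_iff_eq hx']; ring
      rw [this]
      ext <;> simp [hxd]
    have g2 : (refl x hx).act w = v := by
      rw [refl_act, e2, e3]
      rw [e3] at hx'
      have : 2 * ((r : ℂ) - 1) / (2 - 2 * r) = -1 := by
        rw [div_eq_iff hx']; ring
      rw [this]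
      ext <;> simp [hxd]
    rw [DD_act n (refl x hx) _ hF]
    congr 1
    funext u
    have q1 : d2 ((refl x hx).act u) v = d2 u w := by
      conv_lhs => rw [← g2]
      exact Un.d2_act _ _ _
    have q2 : d2 ((refl x hx).act u) w = d2 u v := by
      conv_lhs => rw [← g1]
      exact Un.d2_act _ _ _
    rw [q1, q2]

lemma onb3 (n : ℕ) (v w : Om) (hv : nn2 v ≠ 0) (hw : nn2 w ≠ 0) (F : ℝ × ℝ → ℂ)
    (hF : Integrable (fun u => F (d2 u v, d2 u w)) sg) :
    DD n (fun u => F (d2 u v, d2 u w)) = DD n (fun u => F (d2 u w, d2 u v)) := by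
  have key : ∀ v : Om, nn2 v ≠ 0 → ∀ z : ℂ, ‖z‖ = 1 →
      nn2 (z / ((√(nn2 v) : ℝ) : ℂ) * v.1, z / ((√(nn2 v) : ℝ) : ℂ) * v.2) = 1 := by
    intro v hv z hz
    have h1 : √(nn2 v) ^ 2 = nn2 v := Real.sq_sqrt (nn2_nonneg v)
    simp only [nn2, norm_mul, norm_div, hz, Complex.norm_real,
      Real.norm_of_nonneg (Real.sqrt_nonneg _), mul_pow, div_pow, one_pow]
    rw [← mul_add]
    change 1 / √(nn2 v) ^ 2 * nn2 v = 1
    rw [h1]
    field_simp
  obtain ⟨ζ, hζ, hζ2⟩ : ∃ ζ : ℂ, ‖ζ‖ = 1 ∧ conj ζ * hp v w = ((‖hp v w‖ : ℝ) : ℂ) := by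
    refine ⟨cexp (arg (hp v w) * I), Complex.norm_exp_ofReal_mul_I _, ?_⟩
    have h1 := Complex.norm_mul_exp_arg_mul_I (hp v w)
    conv_lhs => rw [← h1]
    rw [← Complex.exp_conj, mul_left_comm, ← Complex.exp_add]
    simp
  have hc1 : (1 : ℂ) / ((√(nn2 v) : ℝ) : ℂ) ≠ 0 := by
    refine div_ne_zero one_ne_zero ?_
    exact_mod_cast (Real.sqrt_pos.2 (nn2_pos hv)).ne'
  have hc2 : ζ / ((√(nn2 w) : ℝ) : ℂ) ≠ 0 := by
    refine div_ne_zero (by rw [← norm_ne_zero_iff, hζ]; exact one_ne_zero) ?_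
    exact_mod_cast (Real.sqrt_pos.2 (nn2_pos hw)).ne'
  have h := onb3_unit (1 / ((√(nn2 v) : ℝ) : ℂ) * v.1, 1 / ((√(nn2 v) : ℝ) : ℂ) * v.2)
    (ζ / ((√(nn2 w) : ℝ) : ℂ) * w.1, ζ / ((√(nn2 w) : ℝ) : ℂ) * w.2)
    (key v hv 1 (by simp)) (key w hw ζ hζ) (‖hp v w‖ / (√(nn2 v) * √(nn2 w))) (by
      have : hp (1 / ((√(nn2 v) : ℝ) : ℂ) * v.1, 1 / ((√(nn2 v) : ℝ) : ℂ) * v.2)
          (ζ / ((√(nn2 w) : ℝ) : ℂ) * w.1, ζ / ((√(nn2 w) : ℝ) : ℂ) * w.2) =
          conj ζ * hp v w / (((√(nn2 v) : ℝ) : ℂ) * ((√(nn2 w) : ℝ) : ℂ)) := by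
        simp only [hp, map_mul, map_div₀, Complex.conj_ofReal]
        ring
      rw [this, hζ2]
      push_cast
      rfl) n F
  simp only [d2_smul_right _ _ _ hc1, d2_smul_right _ _ _ hc2] at h
  exact h hF

/-- ONB, with the third part for integrable symbols -/
theorem onb' : (∀ n : ℕ, TT n (fun _ => 1) = 1) ∧
  (∀ (n : ℕ) (p : Om), nn2 p ≠ 0 → ∃ U : Matrix (Fin n) (Fin n) ℂ,
    U ∈ Matrix.unitaryGroup (Fin n) ℂ ∧ ∀ f : ℝ → ℂ, IntegrableOn f (Set.Icc 0 1) volume →
      Measurable f → TT n (fun v => f (d2 v p)) =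
        U * Matrix.diagonal (fun j : Fin n => lam n f j) * U.conjTranspose) ∧
  (∀ (n : ℕ) (v w : Om), nn2 v ≠ 0 → nn2 w ≠ 0 → ∀ F : ℝ × ℝ → ℂ, Measurable F →
    Integrable (fun u => F (d2 u v, d2 u w)) sg →
    DD n (fun u => F (d2 u v, d2 u w)) = DD n (fun u => F (d2 u w, d2 u v))) :=
  ⟨onb1, onb2, fun n v w hv hw F _ hF => onb3 n v w hv hw F hF⟩

end

end Pool.Agent.P8H53.FM
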